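import Pool.Agent.H78.OX.Targets

/-! Module LNX of ox_modules: lengths and shapes of the strings. -/

set_option autoImplicit false

namespace Pool.Agent.H14.OX

open Finset Filter Pool.Agent.H6.NB Pool.Agent.H70.OQ Pool.Agent.H70.EH Pool.Agent.H78.XQ
  Pool.Agent.H78.OX

theorem lnx (hCOD : T_COD) : T_LNX := by
  obtain ⟨hi, hl⟩ := hCOD
  refine ⟨?_, ?_, ?_, ?_, ?_, ?_, ?_, ?_, ?_, ?_, ?_, ?_⟩
  · intro s; simp [key]
  · intro s i v
    unfold bx pos
    simp only [List.length_cons, hl]
    omega
  · intro s z
    unfold wx wps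
    simp only [List.length_cons, hl]
    omega
  · intro s s' i v h
    simp [bx, key] at h
  · intro s s' z h
    simp [wx, key] at h
  · intro u s h
    simp [key] at h
  · intro u s i v h
    simp [bx] at h
  · intro u s z h
    simp [wx] at h
  · intro s s' h
    simpa [key] using h
  · intro s s' i v i' v' h
    unfold bx pos at h
    have h2 := List.cons.inj (List.cons.inj h).2
    exact (hi _ _ _ _ _ _ h2.2).1
  · intro s s' z z' h
    unfold wx wps at h
    have h2 := List.cons.inj (List.cons.inj h).2
    exact (hi _ _ _ _ _ _ h2.2).1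
  · intro s s' i v z h
    unfold wx wps bx pos at h
    have h2 := List.cons.inj (List.cons.inj h).2
    have h3 := (hi _ _ _ _ _ _ h2.2).2.2
    rcases hv : v.1 with _ | _ <;> rw [hv] at h3 <;> simp at h3

end Pool.Agent.H14.OX
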