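import Pool.Agent.H78.OX.Targets

/-! Module SPX of ox_modules: the special strings of the seed of the stage. -/

set_option autoImplicit false

namespace Pool.Agent.H14.OX

open Finset Filter Pool.Agent.H6.NB Pool.Agent.H70.OQ Pool.Agent.H70.EH Pool.Agent.H78.XQ
  Pool.Agent.H78.OX

/-- Strings are lists. -/
theorem exists_ofFn' {n : ℕ} {u : List Bool} (hu : u.length = n) :
    ∃ x : Fin n → Bool, List.ofFn x = u := by
  subst hu
  exact ⟨u.get, List.ofFn_get u⟩

theorem spx (hCLX : Pool.Agent.H78.OX.T_CLX) (hNDV : T_NDV) : T_SPX := by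
  intro J n a σ₀ H κ P z u hu
  obtain ⟨u', rfl⟩ := exists_ofFn' hu
  constructor
  · intro h
    have h1 := (hNDV J n (sdx J n (2 ^ a) σ₀ (tabT J H) κ P z) (fun _ => true) H (fun p => by
      unfold sdx
      rw [(hCLX J n (2 ^ a) σ₀).1 p]
      rfl) u').1 h
    simp at h1
  · intro x
    rw [hNDV J n _ (fun x' => !decide (x' = x)) H (fun p => by
      unfold sdx
      rw [(hCLX J n (2 ^ a) σ₀).1 p]
      rfl) u']
    constructor
    · intro h
      have : u' = x := by simpa using h
      rw [this]
    · intro h
      have : u' = x := List.ofFn_injective h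
      simp [this]

end Pool.Agent.H14.OX
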